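import Pool.Agent.H84.Unc.Defs

/-!
# Flipping coordinates of the box (module N4b of project UNC2)
-/

set_option autoImplicit false

open MeasureTheory Set

namespace Pool.Agent.H84.Unc

open Pool.Agent.H84

variable {n : ℕ}

namespace N4b

theorem rf_same (i : Fin n) (x : Fin n → ℝ) : rf i x i = Real.pi - x i := by
  simp [rf]

theorem rf_ne {i j : Fin n} (h : j ≠ i) (x : Fin n → ℝ) : rf i x j = x j := by
  simp [rf, h]

theorem rf_rf (i : Fin n) (x : Fin n → ℝ) : rf i (rf i x) = x := by
  funext j
  by_cases h : j = i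
  · subst h
    rw [rf_same, rf_same]; ring
  · rw [rf_ne h, rf_ne h]

theorem rf_eq_pi (i : Fin n) :
    rf i = fun (x : Fin n → ℝ) (j : Fin n) => (if j = i then (fun t : ℝ => Real.pi - t) else id) (x j) := by
  funext x j
  by_cases h : j = i
  · subst h
    rw [rf_same]; simp
  · rw [rf_ne h]; simp [h]

theorem rf_preserving (i : Fin n) :
    MeasurePreserving (rf i) (volume : Measure (Fin n → ℝ)) volume := by
  rw [rf_eq_pi]
  refine volume_preserving_pi (f := fun j : Fin n => (if j = i then (fun t : ℝ => Real.pi - t) else id)) ?_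
  intro j
  by_cases h : j = i
  · simp only [h, if_true]
    exact Measure.measurePreserving_sub_left volume Real.pi
  · simp only [h, if_false]
    exact MeasurePreserving.id _

theorem rf_measurableEmbedding (i : Fin n) : MeasurableEmbedding (rf i) :=
  (MeasurableEquiv.ofInvolutive (rf i) (rf_rf i) (rf_preserving i).measurable).measurableEmbedding

theorem rf_mem_QQ (i : Fin n) (x : Fin n → ℝ) : rf i x ∈ QQ n ↔ x ∈ QQ n := by
  have key : ∀ y : Fin n → ℝ, y ∈ QQ n → rf i y ∈ QQ n := by
    intro y hy
    refine ⟨fun j => ?_, fun j => ?_⟩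
    · by_cases h : j = i
      · subst h
        rw [rf_same]
        have := hy.2 j
        simp only [Pi.zero_apply]
        linarith
      · rw [rf_ne h]; exact hy.1 j
    · by_cases h : j = i
      · subst h
        rw [rf_same]
        have := hy.1 j
        simp only [Pi.zero_apply] at this
        linarith
      · rw [rf_ne h]; exact hy.2 j
  refine ⟨fun h => ?_, key x⟩
  have := key _ h
  rwa [rf_rf] at this

theorem integral_rf (i : Fin n) (F : (Fin n → ℝ) → ℝ) :
    ∫ x in QQ n, F (rf i x) = ∫ x in QQ n, F x := by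
  have h := (rf_preserving i).setIntegral_preimage_emb (rf_measurableEmbedding i) F (QQ n)
  rw [← h]
  congr 2
  ext x
  exact (rf_mem_QQ i x).symm

theorem tf_rf_same (φ : ℝ) (i : Fin n) (x : Fin n → ℝ) : tf φ i (rf i x) = -tf φ i x := by
  unfold tf zc
  rw [rf_same, ← Real.tanh_neg]
  congr 1
  ring

theorem tf_rf_ne (φ : ℝ) {i j : Fin n} (h : j ≠ i) (x : Fin n → ℝ) :
    tf φ j (rf i x) = tf φ j x := by
  unfold tf zc
  rw [rf_ne h]

theorem continuous_tanh_real : Continuous Real.tanh := by
  have h : Real.tanh = fun x => Real.sinh x / Real.cosh x := by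
    funext x
    exact Real.tanh_eq_sinh_div_cosh x
  rw [h]
  exact Real.continuous_sinh.div Real.continuous_cosh (fun x => (Real.cosh_pos x).ne')

theorem tf_continuous (φ : ℝ) (i : Fin n) : Continuous (tf φ i) := by
  unfold tf zc
  exact continuous_tanh_real.comp (by fun_prop)

theorem isCompact_QQ : IsCompact (QQ n) := isCompact_Icc

/-- The integral of an odd function against an even one vanishes. -/
theorem integral_odd_eq_zero (i : Fin n) {F : (Fin n → ℝ) → ℝ} (hF : ∀ x, F (rf i x) = -F x) :
    ∫ x in QQ n, F x = 0 := by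
  have h := integral_rf i F
  simp only [hF, integral_neg] at h
  linarith

end N4b

open N4b in
theorem flip_integral {W : (Fin n → ℝ) → ℝ} (hW : Continuous W) (heven : ∀ i x, W (rf i x) = W x)
    (φ : ℝ) (S : Finset (Fin n)) {q : (Fin n → ℝ) → ℝ} (hq : Continuous q)
    (hqe : ∀ j ∈ S, ∀ x, q (rf j x) = q x) :
    ∫ x in QQ n, q x * ((∏ j ∈ S, (1 + tf φ j x)) * Real.exp (-W x)) =
      ∫ x in QQ n, q x * Real.exp (-W x) := by
  induction S using Finset.induction_on with
  | empty => simp
  | insert a S ha ih =>
    have ih' := ih (fun j hj => hqe j (Finset.mem_insert_of_mem hj))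
    rw [← ih']
    have hcont : Continuous (fun x : Fin n → ℝ =>
        q x * ((∏ j ∈ S, (1 + tf φ j x)) * Real.exp (-W x))) := by
      refine hq.mul (Continuous.mul ?_ (Real.continuous_exp.comp hW.neg))
      exact continuous_finsetProd _ (fun j _ => continuous_const.add (tf_continuous φ j))
    have hint1 : IntegrableOn (fun x : Fin n → ℝ =>
        q x * ((∏ j ∈ S, (1 + tf φ j x)) * Real.exp (-W x))) (QQ n) :=
      hcont.continuousOn.integrableOn_compact isCompact_QQ
    have hint2 : IntegrableOn (fun x : Fin n → ℝ =>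
        tf φ a x * (q x * ((∏ j ∈ S, (1 + tf φ j x)) * Real.exp (-W x)))) (QQ n) :=
      ((tf_continuous φ a).mul hcont).continuousOn.integrableOn_compact isCompact_QQ
    have hodd : ∫ x in QQ n, tf φ a x * (q x * ((∏ j ∈ S, (1 + tf φ j x)) * Real.exp (-W x))) = 0 := by
      refine integral_odd_eq_zero a (fun x => ?_)
      rw [tf_rf_same, heven, hqe a (Finset.mem_insert_self a S)]
      have : ∏ j ∈ S, (1 + tf φ j (rf a x)) = ∏ j ∈ S, (1 + tf φ j x) := by
        refine Finset.prod_congr rfl (fun j hj => ?_)
        rw [tf_rf_ne φ (fun h : j = a => ha (by rw [← h]; exact hj))]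
      rw [this]
      ring
    have hsplit : (fun x : Fin n → ℝ =>
        q x * ((∏ j ∈ insert a S, (1 + tf φ j x)) * Real.exp (-W x))) =
        fun x => q x * ((∏ j ∈ S, (1 + tf φ j x)) * Real.exp (-W x)) +
          tf φ a x * (q x * ((∏ j ∈ S, (1 + tf φ j x)) * Real.exp (-W x))) := by
      funext x
      rw [Finset.prod_insert ha]
      ring
    rw [hsplit, integral_add hint1 hint2, hodd, add_zero]

end Pool.Agent.H84.Unc
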